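import Pool.Agent.Helper43.GD.St

/-!
# Project GD, module RI: a ring generated by the golden ratio unit
-/

set_option autoImplicit false

namespace Pool.Agent.Helper8.GD

open Pool.Agent.Helper43.GD

theorem RI_two {L : Type} [CommRing L] (M : ℕ) (x : L) (hx : x ^ 2 + x = 1) (hM : x ^ M = -1)
    (h3 : ¬ 3 ∣ M) : IsUnit (2 : L) := by
  have key : (Ideal.Quotient.mk (Ideal.span {(2 : L)})) 1 = 0 := by
    set f := Ideal.Quotient.mk (Ideal.span {(2 : L)}) with hf
    have h2 : f 2 = 0 := Ideal.Quotient.eq_zero_iff_mem.mpr (Ideal.mem_span_singleton_self _)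
    have h2' : (2 : L ⧸ Ideal.span {(2 : L)}) = 0 := by
      rw [← h2]; exact (map_ofNat f 2).symm
    have hy : f x ^ 2 + f x = 1 := by
      rw [← map_pow, ← map_add, hx, map_one]
    have hy3 : f x ^ 3 = 1 := by
      linear_combination (f x - 1) * hy + (f x - 1) * h2'
    have hyM : f x ^ M = 1 := by
      rw [← map_pow, hM, map_neg, map_one]
      linear_combination -h2'
    rw [map_one]
    have hmod := Nat.div_add_mod M 3
    have hlt := Nat.mod_lt M (by norm_num : 3 > 0)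
    have hne : M % 3 ≠ 0 := fun h => h3 (Nat.dvd_of_mod_eq_zero h)
    have hpow : f x ^ (M % 3) = 1 := by
      rw [← hmod, pow_add, pow_mul, hy3, one_pow, one_mul] at hyM
      exact hyM
    have hcase : M % 3 = 1 ∨ M % 3 = 2 := by omega
    rcases hcase with h | h
    · rw [h, pow_one] at hpow
      rw [hpow] at hy
      linear_combination hy
    · rw [h] at hpow
      have h0 : f x = 0 := by linear_combination hy - hpow
      rw [h0] at hpow
      linear_combination -hpow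
  have h1 : (1 : L) ∈ Ideal.span {(2 : L)} := Ideal.Quotient.eq_zero_iff_mem.mp key
  exact isUnit_of_dvd_one (Ideal.mem_span_singleton.mp h1)

theorem RI_seq {L : Type} [CommRing L] (x y : L) (hx : x ^ 2 = 1 - x) (hy : y ^ 2 = 1 - y)
    (hs : x + y = -1) (k : ℕ) :
    ∃ u v : ℤ, x ^ (2 * k) + y ^ (2 * k) = (u : L) ∧ x ^ (2 * k + 1) + y ^ (2 * k + 1) = (v : L) ∧
      2 ≤ u ∧ v ≤ -1 := by
  induction k with
  | zero =>
    refine ⟨2, -1, ?_, ?_, le_rfl, le_rfl⟩
    · push_cast; norm_num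
    · push_cast
      simpa using hs
  | succ k ih =>
    obtain ⟨u, v, h1, h2, h3, h4⟩ := ih
    have e1 : x ^ (2 * (k + 1)) + y ^ (2 * (k + 1)) = ((u - v : ℤ) : L) := by
      push_cast
      rw [← h1, ← h2]
      have a1 : x ^ (2 * (k + 1)) = x ^ (2 * k) * x ^ 2 := by ring
      have a2 : y ^ (2 * (k + 1)) = y ^ (2 * k) * y ^ 2 := by ring
      rw [a1, a2, hx, hy]
      ring
    refine ⟨u - v, v - (u - v), e1, ?_, by omega, by omega⟩
    have a1 : x ^ (2 * (k + 1) + 1) = x ^ (2 * k + 1) * x ^ 2 := by ring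
    have a2 : y ^ (2 * (k + 1) + 1) = y ^ (2 * k + 1) * y ^ 2 := by ring
    have e2 : x ^ (2 * (k + 1) + 1) + y ^ (2 * (k + 1) + 1) =
        (x ^ (2 * k + 1) + y ^ (2 * k + 1)) - (x ^ (2 * (k + 1)) + y ^ (2 * (k + 1))) := by
      rw [a1, a2, hx, hy]
      ring
    rw [e2, h2, e1]
    push_cast
    ring

theorem RI_fin {L : Type} [CommRing L] (x : L) (c : ℕ) (hc : 0 < c) (h0 : (c : L) = 0)
    (hsp : ∀ a : L, ∃ m n : ℤ, a = (m : L) + (n : L) * x) : Finite L := by
  have hred : ∀ m : ℤ, ∃ i : Fin c, (m : L) = ((i : ℕ) : L) := by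
    intro m
    have hc' : (0 : ℤ) < c := by exact_mod_cast hc
    have h1 : 0 ≤ m % c := Int.emod_nonneg _ hc'.ne'
    have h2 : m % c < c := Int.emod_lt_of_pos _ hc'
    refine ⟨⟨(m % c).toNat, by omega⟩, ?_⟩
    have h3 : (((m % c).toNat : ℕ) : ℤ) = m % c := Int.toNat_of_nonneg h1
    have h4 : m = c * (m / c) + m % c := (Int.mul_ediv_add_emod m c).symm
    have h5 : (((m % c).toNat : ℕ) : L) = ((m % c : ℤ) : L) := by
      rw [← h3]; push_cast; rfl
    show (m : L) = (((m % c).toNat : ℕ) : L)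
    rw [h5]
    conv_lhs => rw [h4]
    push_cast
    rw [h0]
    ring
  refine Finite.of_surjective (fun p : Fin c × Fin c => ((p.1 : ℕ) : L) + ((p.2 : ℕ) : L) * x) ?_
  intro a
  obtain ⟨m, n, rfl⟩ := hsp a
  obtain ⟨i, hi⟩ := hred m
  obtain ⟨j, hj⟩ := hred n
  exact ⟨(i, j), by rw [hi, hj]⟩

theorem hRI : StRI := by
  intro L _ M x hx hM h4 h3 hsp
  refine ⟨?_, hx, hM, h4, h3, RI_two M (x : L) hx hM h3, hsp⟩
  obtain ⟨k, hk⟩ : 2 ∣ M := dvd_trans (by norm_num) h4
  set y : L := -1 - (x : L) with hy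
  have hx2 : (x : L) ^ 2 = 1 - x := by linear_combination hx
  have hy2 : y ^ 2 = 1 - y := by
    rw [hy]; linear_combination hx
  have hxy : (x : L) * y = -1 := by
    rw [hy]; linear_combination -hx
  have hyM : y ^ M = -1 := by
    have h1 : ((x : L) * y) ^ M = 1 := by
      rw [hxy, hk, pow_mul]; norm_num
    rw [mul_pow, hM] at h1
    linear_combination -h1
  obtain ⟨u, v, e1, -, e3, -⟩ := RI_seq (x : L) y hx2 hy2 (by rw [hy]; ring) k
  rw [← hk, hM, hyM] at e1
  refine RI_fin (x : L) (u + 2).toNat (by omega) ?_ hsp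
  have h5 : (((u + 2).toNat : ℕ) : ℤ) = u + 2 := Int.toNat_of_nonneg (by omega)
  have h6 : (((u + 2).toNat : ℕ) : L) = ((u + 2 : ℤ) : L) := by
    rw [← h5]; push_cast; rfl
  rw [h6]
  push_cast
  rw [← e1]
  norm_num

end Pool.Agent.Helper8.GD
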